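import Pool.Agent.H.MP_360872_lc.A

set_option autoImplicit false
open Cardinal Set Function Filter Topology Polynomial

namespace Pool.Agent.H.MP_c4bd3e_lc

lemma cont (P : ℝ[X][X]) : Continuous fun p : ℝ × ℝ => P.evalEval p.1 p.2 := by
  induction P using Polynomial.induction_on' with
  | add p q hp hq => simp only [evalEval_add]; exact hp.add hq
  | monomial n a =>
    simp only [← C_mul_X_pow_eq_monomial, evalEval_mul, evalEval_C, evalEval_pow, evalEval_X]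
    exact (a.continuous.comp continuous_fst).mul (continuous_snd.pow n)

def Nice (P : ℝ[X][X]) (a b c d : ℝ) : Prop :=
  (∀ v ∈ Icc c d, StrictMonoOn (fun z => P.evalEval v z) (Icc a b)) ∧
    ∀ z ∈ Icc a b, P.eval (C z) ≠ 0

def Bad (P : ℝ[X][X]) (a b c d : ℝ) (T : Set ℝ) : Set ℝ :=
  {v | Nice P a b c d ∧ v ∈ Icc c d ∧ ∃ z ∈ closure T ∩ Icc a b, P.evalEval v z = 0}

lemma bad_nwd (P : ℝ[X][X]) (a b c d : ℝ) (T : Set ℝ) (hT : IsNowhereDense T) :
    IsNowhereDense (Bad P a b c d T) := by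
  by_cases hN : Nice P a b c d
  swap
  · have : Bad P a b c d T = ∅ := eq_empty_of_forall_notMem fun v h => hN h.1
    rw [this]
    exact isNowhereDense_empty
  have hc : IsClosed (Bad P a b c d T) := by
    have : Bad P a b c d T = Prod.fst '' ((Icc c d ×ˢ (closure T ∩ Icc a b)) ∩
        {p : ℝ × ℝ | P.evalEval p.1 p.2 = 0}) := by
      ext v
      exact ⟨fun ⟨_, h1, z, h2, h3⟩ => ⟨(v, z), ⟨⟨h1, h2⟩, h3⟩, rfl⟩,
        fun ⟨p, ⟨⟨h1, h2⟩, h3⟩, e⟩ => e ▸ ⟨hN, h1, p.2, h2, h3⟩⟩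
    rw [this]
    exact (((isCompact_Icc.prod (isCompact_Icc.inter_left isClosed_closure)).inter_right
      (isClosed_eq (cont P) continuous_const)).image continuous_fst).isClosed
  refine hc.isNowhereDense_iff.2 (eq_empty_of_forall_notMem fun v0 h0 => ?_)
  obtain ⟨p, q, ⟨h1, h2⟩, h3⟩ := mem_nhds_iff_exists_Ioo_subset.1 (mem_interior_iff_mem_nhds.1 h0)
  have key : ∀ v1 ∈ Ioo p q, ∀ v2 ∈ Ioo p q, ∀ z1 ∈ Icc a b, ∀ z2 ∈ Icc a b,
      P.evalEval v1 z1 = 0 → P.evalEval v2 z2 = 0 → ¬ z1 < z2 := by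
    intro v1 a1 v2 a2 z1 b1 z2 b2 c1 c2 hlt
    obtain ⟨w, w1, w2⟩ := (isClosed_isNowhereDense_iff_compl.1
      ⟨isClosed_closure, hT.closure⟩).2.exists_mem_open isOpen_Ioo (nonempty_Ioo.2 hlt)
    have hw : w ∈ Icc a b := ⟨b1.1.trans w2.1.le, w2.2.le.trans b2.2⟩
    have e1 : 0 < P.evalEval v1 w := c1 ▸ hN.1 v1 (h3 a1).2.1 b1 hw w2.1
    have e2 : P.evalEval v2 w < 0 := c2 ▸ hN.1 v2 (h3 a2).2.1 hw b2 w2.2
    obtain ⟨v, d1, d2⟩ := isPreconnected_Ioo.intermediate_value a2 a1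
      (f := fun v => P.evalEval v w) (P.eval (C w)).continuous.continuousOn ⟨e2.le, e1.le⟩
    obtain ⟨-, d3, z, d4, d5⟩ := h3 d1
    exact w1 ((hN.1 v d3).injOn d4.2 hw (d5.trans d2.symm) ▸ d4.1)
  obtain ⟨-, -, z0, g1, g2⟩ := h3 ⟨h1, h2⟩
  refine hN.2 z0 g1.2 (eq_zero_of_infinite_isRoot _ ((Ioo_infinite (h1.trans h2)).mono
    fun v hv => ?_))
  obtain ⟨-, -, z, d4, d5⟩ := h3 hv
  have : z = z0 := le_antisymm (not_lt.1 (key _ ⟨h1, h2⟩ _ hv _ g1.2 _ d4.2 g2 d5))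
    (not_lt.1 (key _ hv _ ⟨h1, h2⟩ _ d4.2 _ g1.2 d5 g2))
  exact this ▸ d5

lemma nice_ex (P : ℝ[X][X]) (v z : ℝ) (h1 : 0 < P.derivative.evalEval v z)
    (h2 : P.eval (C z) ≠ 0) : ∃ a b c d : ℚ, Nice P a b c d ∧ v ∈ Icc (c : ℝ) d ∧
      z ∈ Icc (a : ℝ) b := by
  obtain ⟨w, hw⟩ : ∃ w, P.evalEval w z ≠ 0 := by
    by_contra! h
    exact h2 (Polynomial.funext fun r => by simpa using h r)
  have e1 : ∀ᶠ p in 𝓝 (v, z), 0 < P.derivative.evalEval p.1 p.2 :=
    (cont _).continuousAt.eventually (lt_mem_nhds h1)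
  have e2 : ∀ᶠ p in 𝓝 (v, z), P.evalEval w p.2 ≠ 0 :=
    ((cont P).comp (continuous_const.prodMk continuous_snd)).continuousAt.eventually_ne hw
  obtain ⟨ε, hε, h⟩ := Metric.eventually_nhds_iff.1 (e1.and e2)
  obtain ⟨a, a1, a2⟩ := exists_rat_btwn (sub_lt_self z hε)
  obtain ⟨b, b1, b2⟩ := exists_rat_btwn (lt_add_of_pos_right z hε)
  obtain ⟨c, c1, c2⟩ := exists_rat_btwn (sub_lt_self v hε)
  obtain ⟨d, d1, d2⟩ := exists_rat_btwn (lt_add_of_pos_right v hε)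
  have k : ∀ v' ∈ Icc (c : ℝ) d, ∀ z' ∈ Icc (a : ℝ) b, dist (v', z') (v, z) < ε := by
    intro v' hv z' hz
    rw [Prod.dist_eq, max_lt_iff, Real.dist_eq, Real.dist_eq, abs_lt, abs_lt]
    exact ⟨⟨by linarith [hv.1], by linarith [hv.2]⟩, by linarith [hz.1], by linarith [hz.2]⟩
  refine ⟨a, b, c, d, ⟨fun v' hv => ?_, fun z' hz e => (h (k v ⟨c2.le, d1.le⟩ z' hz)).2 ?_⟩,
    ⟨c2.le, d1.le⟩, a2.le, b1.le⟩
  · simp only [← map_evalRingHom_eval]
    refine strictMonoOn_of_deriv_pos (convex_Icc _ _) (Polynomial.continuous _).continuousOn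
      fun z' hz => ?_
    rw [Polynomial.deriv, derivative_map, map_evalRingHom_eval]
    exact (h (k v' hv z' (interior_subset hz))).1
  · simp [evalEval, e]

lemma sep (v z : ℝ) {R : Type} [CommRing R] (φ : R →+* ℝ[X]) : ∀ (n : ℕ) (P : R[X]),
    ((P.map φ).map (evalRingHom v)).natDegree = n → (P.map φ).map (evalRingHom v) ≠ 0 →
    (P.map φ).evalEval v z = 0 →
    ∃ P : R[X], (P.map φ).evalEval v z = 0 ∧ 0 < (P.map φ).derivative.evalEval v z := by
  intro n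
  induction n using Nat.strong_induction_on with
  | _ n ih =>
  intro P h1 h2 h3
  rcases lt_trichotomy 0 ((P.map φ).derivative.evalEval v z) with h | h | h
  · exact ⟨P, h3, h⟩
  · have h4 : n ≠ 0 := by
      rintro rfl
      rw [← map_evalRingHom_eval, eq_C_of_natDegree_eq_zero h1, eval_C] at h3
      exact h2 (by rw [eq_C_of_natDegree_eq_zero h1, h3, C_0])
    refine ih _ ?_ P.derivative rfl ?_ (by rw [← derivative_map]; exact h.symm)
    · rw [← derivative_map, ← derivative_map, ← h1]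
      exact natDegree_derivative_lt (h1 ▸ h4)
    · rw [← derivative_map, ← derivative_map]
      exact fun e => h4 (h1 ▸ derivative_eq_zero.1 e)
  · exact ⟨-P, by simpa using h3, by simpa using h⟩

noncomputable def cl (S : Set ℝ) : Set ℝ := (AlgebraicIndependent.matroid ℚ ℝ).closure S

lemma mem_cl {S : Set ℝ} {z : ℝ} : z ∈ cl S ↔ IsAlgebraic (Algebra.adjoin ℚ S) z := by
  rw [cl, AlgebraicIndependent.matroid_closure_eq, SetLike.mem_coe, Subalgebra.mem_algebraicClosure]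

def CovM : Prop := ∀ S : Set (Set ℝ), #S < 𝔠 → (∀ s ∈ S, IsNowhereDense s) → ⋃₀ S ≠ Set.univ

theorem generic (hc : CovM) (S : Set ℝ) (hS : #S < 𝔠) : ∃ v, v ∉ cl S ∧
    ∀ z, ¬ Liouville z → z ∈ cl (insert v S) → z ∈ cl S := by
  obtain ⟨T, t1, t2, t3⟩ := isMeagre_iff_countable_union_isNowhereDense.1
    (show IsMeagre {z : ℝ | ¬ Liouville z} from
      mem_of_superset eventually_residual_liouville fun _ h h' => h' h)
  set R := Algebra.adjoin ℚ S
  have hR : #R < 𝔠 := (Algebra.cardinalMk_adjoin_le ℚ S).trans_lt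
    (max_lt (max_lt (mk_le_aleph0.trans_lt aleph0_lt_continuum) hS) aleph0_lt_continuum)
  let φ : R[X] →+* ℝ[X] := mapRingHom (algebraMap R ℝ)
  let s : {z : ℝ // IsAlgebraic R z} ⊕ (R[X][X] × (ℚ × ℚ × ℚ × ℚ × T)) → Set ℝ :=
    Sum.elim (fun z => {z.1}) fun u => Bad (u.1.map φ) u.2.1 u.2.2.1 u.2.2.2.1 u.2.2.2.2.1 u.2.2.2.2.2
  have := t2.to_subtype
  have h1 : #(range s) < 𝔠 := by
    refine mk_range_le.trans_lt ?_
    rw [mk_sum, mk_prod, lift_id, lift_id, lift_id, lift_id]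
    have a := max_lt hR aleph0_lt_continuum
    exact add_lt_of_lt aleph0_le_continuum ((Algebraic.cardinalMk_le_max R ℝ).trans_lt a)
      (mul_lt_of_lt aleph0_le_continuum (Polynomial.cardinalMk_le_max.trans_lt (max_lt
        (Polynomial.cardinalMk_le_max.trans_lt a) aleph0_lt_continuum))
        (mk_le_aleph0.trans_lt aleph0_lt_continuum))
  obtain ⟨v, hv⟩ := (ne_univ_iff_exists_notMem _).1 (hc _ h1 (by
    rintro _ ⟨u | u, rfl⟩
    · exact isClosed_singleton.isNowhereDense_iff.2 (interior_singleton _)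
    · exact bad_nwd _ _ _ _ _ _ (t1 _ u.2.2.2.2.2.2)))
  refine ⟨v, fun h => hv ⟨_, ⟨Sum.inl ⟨v, mem_cl.1 h⟩, rfl⟩, rfl⟩, fun z z1 z2 => ?_⟩
  by_contra z3
  rw [mem_cl] at z2 z3
  obtain ⟨p, p1, p2⟩ := z2
  have p3 : p.map (algebraMap _ ℝ) ∈ lifts ((evalRingHom v).comp φ) := by
    rw [lifts_iff_coeff_lifts]
    intro n
    have : (p.coeff n).1 ∈ Algebra.adjoin ℚ (S ∪ {v}) := by
      rw [union_singleton]; exact (p.coeff n).2
    rw [Algebra.adjoin_union_eq_adjoin_adjoin, Subalgebra.mem_restrictScalars,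
      Algebra.adjoin_singleton_eq_range_aeval] at this
    obtain ⟨q, hq⟩ := this
    exact ⟨q, by simpa [φ, eval_map_algebraMap] using hq⟩
  obtain ⟨P, hP⟩ := (mem_lifts _).1 p3
  rw [← Polynomial.map_map] at hP
  obtain ⟨Q, q1, q2⟩ := sep v z φ _ P rfl (hP ▸ (Polynomial.map_ne_zero_iff
    Subtype.val_injective).2 p1) (by rw [← map_evalRingHom_eval, hP, eval_map_algebraMap, p2])
  have q3 : (Q.map φ).eval (C z) ≠ 0 := by
    intro e
    have : Q = 0 := by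
      ext1 i
      refine eq_zero_of_infinite_isRoot _ (Set.infinite_of_injective_forall_mem
        (f := fun k : ℕ => (k : R)) Nat.cast_injective fun k => ?_)
      have a : Q.map (evalRingHom (k : R)) = 0 := by
        by_contra b
        refine z3 ⟨_, b, ?_⟩
        have c : (Q.map φ).evalEval (k : ℝ) z = 0 := by simp [evalEval, e]
        rw [← c, ← map_evalRingHom_eval, ← eval_map_algebraMap, Polynomial.map_map,
          Polynomial.map_map]
        congr 2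
        ext <;> simp [φ]
      simpa using congrArg (coeff · i) a
    simp [this] at q2
  obtain ⟨a, b, c, d, n1, n2, n3⟩ := nice_ex _ v z q2 q3
  obtain ⟨t, u1, u2⟩ := t3 z1
  exact hv ⟨_, ⟨Sum.inr (Q, a, b, c, d, ⟨t, u1⟩), rfl⟩, n1, n2, z, ⟨subset_closure u2, n3⟩, q1⟩

end Pool.Agent.H.MP_c4bd3e_lc
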