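import Pool.Agent.H.MP_c4bd3e_lc.A

set_option autoImplicit false
open Cardinal Set Function Filter Topology Polynomial
open Pool.Agent.H.MP_360872_lc

namespace Pool.Agent.H.MP_c4bd3e_lc

lemma cl_mono {S T : Set ℝ} (h : S ⊆ cl T) : cl S ⊆ cl T :=
  Matroid.closure_subset_closure_of_subset_closure h

lemma sub_cl (S : Set ℝ) : S ⊆ cl S := Matroid.subset_closure _ _ (subset_univ _)

lemma exch {S : Set ℝ} {e f : ℝ} (h : e ∈ cl (insert f S)) (h' : e ∉ cl S) :
    f ∈ cl (insert e S) := (Matroid.closure_exchange ⟨h, h'⟩).1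

lemma cl_alg {S : Set ℝ} {z : ℝ} (h : IsAlgebraic ℚ z) : z ∈ cl S :=
  mem_cl.2 (h.extendScalars (algebraMap ℚ (Algebra.adjoin ℚ S)).injective)

lemma y_alg : IsAlgebraic ℚ √2 := ⟨X ^ 2 - C 2, X_pow_sub_C_ne_zero (by norm_num) _, by simp⟩

lemma cl_lin {S : Set ℝ} {a b r s : ℝ} (ha : a ∈ cl S) (hb : b ∈ cl S) (hr : IsAlgebraic ℚ r)
    (hs : IsAlgebraic ℚ s) : r * a + s * b ∈ cl S :=
  mem_cl.2 (((mem_cl.1 (cl_alg hr)).mul (mem_cl.1 ha)).add
    ((mem_cl.1 (cl_alg hs)).mul (mem_cl.1 hb)))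

lemma conj (K : Subfield ℝ) (hy : √2 ∉ K) {u v : ℝ} (hu : u ∈ K) (hv : v ∈ K) {T : Set ℝ}
    (hT : T ⊆ K) (h : u + √2 * v ∈ cl T) : u - √2 * v ∈ cl T := by
  obtain ⟨p, p1, p2⟩ := mem_cl.1 h
  have h2 : √2 * √2 = 2 := Real.mul_self_sqrt (by norm_num)
  have key : ∀ p : (Algebra.adjoin ℚ T)[X], ∃ A ∈ K, ∃ B ∈ K,
      aeval (u + √2 * v) p = A + √2 * B ∧ aeval (u - √2 * v) p = A - √2 * B := by
    intro p
    induction p using Polynomial.induction_on with
    | C a =>
      refine ⟨a, ?_, 0, K.zero_mem, by simp, by simp⟩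
      obtain ⟨a, ha⟩ := a
      induction ha using Algebra.adjoin_induction with
      | mem x hx => exact hT hx
      | algebraMap r => exact SubfieldClass.ratCast_mem K r
      | add x y _ _ a b => exact K.add_mem a b
      | mul x y _ _ a b => exact K.mul_mem a b
    | add p q hp hq =>
      obtain ⟨A, a, B, b, c, d⟩ := hp
      obtain ⟨A', a', B', b', c', d'⟩ := hq
      exact ⟨A + A', K.add_mem a a', B + B', K.add_mem b b', by rw [map_add, c, c']; ring,
        by rw [map_add, d, d']; ring⟩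
    | monomial n a hp =>
      obtain ⟨A, a, B, b, c, d⟩ := hp
      refine ⟨A * u + 2 * (B * v), K.add_mem (K.mul_mem a hu) (K.mul_mem (natCast_mem K 2)
        (K.mul_mem b hv)), A * v + B * u, K.add_mem (K.mul_mem a hv) (K.mul_mem b hu), ?_, ?_⟩
      · rw [pow_succ, ← mul_assoc, map_mul, c, aeval_X]
        linear_combination (B * v) * h2
      · rw [pow_succ, ← mul_assoc, map_mul, d, aeval_X]
        linear_combination (B * v) * h2
  obtain ⟨A, a, B, b, c, d⟩ := key p
  have hB : B = 0 := by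
    by_contra hB
    refine hy ((show -A / B = √2 by field_simp; linarith) ▸ K.div_mem (K.neg_mem a) b)
  refine mem_cl.2 ⟨p, p1, ?_⟩
  rw [d]
  rw [c] at p2
  simpa [hB] using p2

lemma ext1 {T : Set ℝ} {t : ℝ} (h : √2 ∉ IntermediateField.adjoin ℚ T) (ht : t ∉ cl T) :
    √2 ∉ IntermediateField.adjoin ℚ (insert t T) := by
  intro hm
  rw [← union_singleton, ← IntermediateField.adjoin_adjoin_left,
    IntermediateField.mem_restrictScalars, IntermediateField.mem_adjoin_simple_iff] at hm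
  obtain ⟨r, s, e⟩ := hm
  rw [mem_cl, ← IntermediateField.isAlgebraic_adjoin_iff] at ht
  have h2 : √2 * √2 = 2 := Real.mul_self_sqrt (by norm_num)
  have h0 : √2 ≠ 0 := by positivity
  have hs : aeval t s ≠ 0 := fun h => h0 (by rw [e, h, div_zero])
  have h3 : r * r - C 2 * (s * s) = 0 := by
    by_contra hn
    refine ht ⟨_, hn, ?_⟩
    rw [eq_div_iff hs] at e
    simp only [map_sub, map_mul, map_ofNat, ← e]
    linear_combination (aeval t s * aeval t s) * h2
  have h4 := congrArg leadingCoeff (sub_eq_zero.1 h3)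
  simp only [leadingCoeff_mul, leadingCoeff_C] at h4
  have h5 : s.leadingCoeff ≠ 0 := leadingCoeff_ne_zero.2 fun h => hs (by simp [h])
  set w := r.leadingCoeff / s.leadingCoeff
  have h6 : w * w = 2 := by
    simp only [w]
    field_simp
    linear_combination h4
  have h7 : (w : ℝ) * w = √2 * √2 := by
    rw [h2]
    exact congrArg Subtype.val h6
  rcases mul_self_eq_mul_self_iff.1 h7 with h8 | h8
  · exact h (h8 ▸ w.2)
  · exact h (by simpa [h8] using (-w).2)

def G {ι : Type} (g : ι → ℝ × ℝ) (s : Set ι) : Set ℝ := (Prod.fst ∘ g) '' s ∪ (Prod.snd ∘ g) '' s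

lemma G_mono {ι : Type} (g : ι → ℝ × ℝ) {s t : Set ι} (h : s ⊆ t) : G g s ⊆ G g t :=
  union_subset_union (image_mono h) (image_mono h)

lemma G_ins {ι : Type} (g : ι → ℝ × ℝ) (s : Set ι) (a : ι) :
    G g (insert a s) = insert (g a).1 (insert (g a).2 (G g s)) := by
  simp only [G, image_insert_eq, comp_apply, insert_union, union_insert, insert_comm]

lemma G_fin {ι : Type} (g : ι → ℝ × ℝ) {s : Set ι} {I : Set ℝ} (h : I.Finite) (h' : I ⊆ G g s) :
    ∃ t : Finset ι, ↑t ⊆ s ∧ I ⊆ G g t := by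
  have : ∀ z : I, ∃ a ∈ s, z.1 ∈ G g {a} := fun z => by
    rcases h' z.2 with ⟨a, b, c⟩ | ⟨a, b, c⟩
    · exact ⟨a, b, Or.inl ⟨a, rfl, c⟩⟩
    · exact ⟨a, b, Or.inr ⟨a, rfl, c⟩⟩
  choose f f1 f2 using this
  have := h.to_subtype
  refine ⟨(finite_range f).toFinset, ?_, fun z hz => G_mono g ?_ (f2 ⟨z, hz⟩)⟩
  · simpa [range_subset_iff] using f1
  · simp

def St (x : ℝ) (S : Set ℝ) (p : ℝ × ℝ) : Prop :=
  (x ∈ cl S ∧ p = (0, 0)) ∨ (x ∉ cl S ∧ p.1 + √2 * p.2 = x ∧ p.2 ∉ cl (insert x S) ∧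
    ∀ z, ¬ Liouville z → z ∈ cl (insert p.2 (insert x S)) → z ∈ cl (insert x S))

theorem main (hc : CovM) : ∃ K : Subfield ℝ, √2 ∉ K ∧ (∀ K' : Subfield ℝ, K < K' → √2 ∈ K') ∧
    ∀ z ∈ K, IsAlgebraic ℚ z ∨ Liouville z := by
  classical
  obtain ⟨x⟩ : Nonempty (O ≃ ℝ) := Cardinal.eq.1 (hO.trans mk_real.symm)
  obtain ⟨g, hg⟩ := rec_choice (α := O) (β := ℝ × ℝ) (fun α prev p =>
      St (x α) (G prev Set.univ) p) fun α prev => by
    by_cases h : x α ∈ cl (G prev Set.univ)
    · exact ⟨_, Or.inl ⟨h, rfl⟩⟩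
    have a : ∀ f : Iio α → ℝ, #(f '' Set.univ) < 𝔠 := fun f =>
      mk_image_le.trans_lt (mk_univ.trans_lt (hIio α))
    obtain ⟨v, v1, v2⟩ := generic hc (insert (x α) (G prev Set.univ)) (mk_insert_le.trans_lt
      (add_one_lt_of_lt aleph0_le_continuum ((mk_union_le _ _).trans_lt
        (add_lt_of_lt aleph0_le_continuum (a _) (a _)))))
    exact ⟨(x α - √2 * v, v), Or.inr ⟨h, by simp, v1, v2⟩⟩
  have hg : ∀ α, St (x α) (G g (Iio α)) (g α) := fun α => by
    convert hg α using 1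
    ext z
    simp [G]
  have one : IsAlgebraic ℚ (1 : ℝ) := isAlgebraic_one
  have hx : ∀ α, x α ∈ cl (G g (insert α (Iio α))) := fun α => by
    rcases hg α with ⟨a, -⟩ | ⟨-, a, -⟩
    · exact cl_mono ((G_mono g (subset_insert _ _)).trans (sub_cl _)) a
    · rw [← a, ← one_mul (g α).1, G_ins]
      exact cl_lin (sub_cl _ (by simp)) (sub_cl _ (by simp)) one y_alg
  have h1 : ∀ t : Finset O, √2 ∉ IntermediateField.adjoin ℚ (G g t) := by
    intro t
    induction t using Finset.induction_on_max with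
    | empty =>
      simp only [G, Finset.coe_empty, image_empty, union_self, IntermediateField.adjoin_empty,
        IntermediateField.mem_bot]
      exact irrational_sqrt_two
    | insert α t ht ih =>
      rw [Finset.coe_insert, G_ins]
      have b : G g t ⊆ G g (Iio α) := G_mono g fun β hβ => ht β hβ
      rcases hg α with ⟨-, a⟩ | ⟨a1, a2, a3, -⟩
      · refine fun h => ih (IntermediateField.adjoin_le_iff.2 ?_ h)
        rw [a]
        exact insert_subset (zero_mem _) (insert_subset (zero_mem _)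
          (IntermediateField.subset_adjoin _ _))
      · refine ext1 (ext1 ih fun h => a3 (cl_mono ((b.trans (subset_insert _ _)).trans
          (sub_cl _)) h)) fun h => a3 (exch ?_ a1)
        rw [← a2, ← one_mul (g α).1]
        exact cl_lin (cl_mono ((insert_subset_insert b).trans (sub_cl _)) h)
          (sub_cl _ (by simp)) one y_alg
  have h2 : √2 ∉ (IntermediateField.adjoin ℚ (G g Set.univ)).toSubfield := fun h => by
    obtain ⟨T, a, b⟩ := IntermediateField.exists_finset_of_mem_adjoin h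
    obtain ⟨t, -, c⟩ := G_fin g T.finite_toSet a
    exact h1 t (IntermediateField.adjoin.mono _ _ _ c b)
  obtain ⟨K, k1, k2⟩ := zorn_le_nonempty₀ {K : Subfield ℝ | √2 ∉ K} (fun c c1 c2 K hK =>
    ⟨sSup c, fun h => by
      obtain ⟨s, a, b⟩ := (Subfield.mem_sSup_of_directedOn ⟨K, hK⟩ c2.directedOn).1 h
      exact c1 a b, fun _ h => le_sSup h⟩) _ h2
  have k3 : ∀ s, G g s ⊆ K := fun s z hz =>
    k1 (IntermediateField.subset_adjoin _ _ (G_mono g (subset_univ s) hz))
  refine ⟨K, k2.1, fun K' h => by_contra fun h' => h.not_ge (k2.2 h' h.le), fun z z1 =>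
    or_iff_not_imp_right.2 fun z2 => ?_⟩
  have step : ∀ α, z ∈ cl (G g (insert α (Iio α))) → z ∈ cl (G g (Iio α)) := by
    intro α h
    rw [G_ins] at h
    rcases hg α with ⟨-, a⟩ | ⟨a1, a2, a3, a4⟩
    · rw [a] at h
      exact cl_mono (insert_subset (cl_alg isAlgebraic_zero) (insert_subset
        (cl_alg isAlgebraic_zero) (sub_cl _))) h
    by_contra hn
    have b1 : z ∈ cl (insert (x α) (G g (Iio α))) := by
      refine a4 z z2 (cl_mono (insert_subset ?_ ((insert_subset_insert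
        (subset_insert _ _)).trans (sub_cl _))) h)
      rw [show (g α).1 = 1 * x α + (-√2) * (g α).2 by rw [← a2]; ring]
      exact cl_lin (sub_cl _ (by simp)) (sub_cl _ (by simp)) one y_alg.neg
    have b2 := exch b1 hn
    have b3 := conj K k2.1 (k3 {α} (Or.inl ⟨α, rfl, rfl⟩)) (k3 {α} (Or.inr ⟨α, rfl, rfl⟩))
      (insert_subset z1 (k3 _)) (a2.symm ▸ b2)
    refine a3 (cl_mono (insert_subset b1 ((subset_insert _ _).trans (sub_cl _))) ?_)
    have c : IsAlgebraic ℚ (√2 + √2)⁻¹ := (y_alg.add y_alg).inv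
    have e : (g α).2 = (√2 + √2)⁻¹ * x α + (-(√2 + √2)⁻¹) * ((g α).1 - √2 * (g α).2) := by
      rw [← a2]
      have : √2 ≠ 0 := by positivity
      field_simp
      ring
    rw [e]
    exact cl_lin b2 b3 c c.neg
  have fin : ∀ α, z ∈ cl (G g (Iio α)) → z ∈ cl ∅ := by
    intro α
    induction α using WellFoundedLT.induction with
    | ind α ih =>
    intro h
    obtain ⟨I, a, b, -, c⟩ := Matroid.exists_mem_finite_closure_of_mem_closure h
    obtain ⟨t, d, e⟩ := G_fin g b a
    rcases t.eq_empty_or_nonempty with rfl | ht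
    · exact cl_mono (e.trans (by simp [G])) c
    obtain ⟨β, f1, f2⟩ := t.exists_max_image id ht
    exact ih β (d f1) (step β (cl_mono ((e.trans (G_mono g fun γ hγ =>
      (f2 γ hγ).eq_or_lt)).trans (sub_cl _)) c))
  have := mem_cl.1 (fin (x.symm z) (step _ (by simpa using hx (x.symm z))))
  rw [Algebra.adjoin_empty] at this
  exact (Subalgebra.isAlgebraic_bot_iff (algebraMap ℚ ℝ).injective).1 this

end Pool.Agent.H.MP_c4bd3e_lc
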